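import Pool.Agent.L7h49.WN.Def

/-! Project WN, part POT. -/

set_option autoImplicit false

noncomputable section

namespace Pool.Agent.L7h21.WN
open Pool.Agent.L7h49.WN

theorem vdc_mem (n : ℕ) : 0 ≤ vdc n ∧ vdc n ≤ 1 := by
  induction n using Nat.strong_induction_on with
  | _ n ih =>
    cases n with
    | zero => rw [vdc]; norm_num
    | succ n =>
      have h := ih ((n + 1) / 2) (by omega)
      have h1 : (((n + 1) % 2 : ℕ) : ℝ) ≤ 1 := by
        have : (n + 1) % 2 ≤ 1 := by omega
        exact_mod_cast this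
      have h2 : (0 : ℝ) ≤ (((n + 1) % 2 : ℕ) : ℝ) := Nat.cast_nonneg _
      rw [vdc]
      constructor <;> linarith [h.1, h.2]

theorem sl_mem (t : ℝ) (h0 : 0 ≤ t) (h1 : t ≤ 1 / 2) : |sl t| ≤ 1 / √5 := by
  have hp : 0 < √(1 + t ^ 2) := Real.sqrt_pos.mpr (by positivity)
  have h5 : (0 : ℝ) < √5 := Real.sqrt_pos.mpr (by norm_num)
  have hn : 0 ≤ sl t := by unfold sl; positivity
  rw [abs_of_nonneg hn]
  unfold sl
  rw [div_le_div_iff₀ hp h5, one_mul]
  apply Real.le_sqrt_of_sq_le
  rw [mul_pow, Real.sq_sqrt (by norm_num)]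
  nlinarith

theorem aN_mem (k : ℕ) : |aN k| ≤ 1 / √5 := by
  have h := vdc_mem (k / 4)
  unfold aN
  split_ifs
  · exact sl_mem _ (by linarith [h.1]) (by linarith [h.2])
  · rw [abs_neg]
    exact sl_mem _ (by linarith [h.1]) (by linarith [h.2])
  · exact sl_mem _ (by linarith [h.2]) (by linarith [h.1])
  · rw [abs_neg]
    exact sl_mem _ (by linarith [h.2]) (by linarith [h.1])

theorem a_mem (k : ℤ) : |a k| ≤ 1 / √5 := by
  unfold a
  split_ifs
  · exact aN_mem _
  · exact aN_mem _

/-- the sum of the increments -/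
def Hf (u : ℝ) (k : ℤ) : ℝ :=
  if 0 ≤ k then ∑ j ∈ Finset.range k.toNat, (mu u (aN j) - Ubar u)
  else -∑ j ∈ Finset.range (-k).toNat, (mu u (aN j) - Ubar u)

theorem Hf_neg (u : ℝ) (m : ℕ) : Hf u (-(m : ℤ)) = -∑ j ∈ Finset.range m, (mu u (aN j) - Ubar u) := by
  unfold Hf
  split_ifs with h
  · have hm : m = 0 := by omega
    subst hm
    simp
  · rw [neg_neg, Int.toNat_natCast]

theorem Hf_pos (u : ℝ) (m : ℕ) : Hf u (m : ℤ) = ∑ j ∈ Finset.range m, (mu u (aN j) - Ubar u) := by
  unfold Hf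
  rw [if_pos (by omega), Int.toNat_natCast]

theorem Hf_step (u : ℝ) (k : ℤ) : Hf u (k + 1) - Hf u k = mu u (a k) - Ubar u := by
  by_cases hk : 0 ≤ k
  · obtain ⟨m, rfl⟩ := Int.eq_ofNat_of_zero_le hk
    have e : ((m : ℤ) + 1) = ((m + 1 : ℕ) : ℤ) := by push_cast; ring
    rw [e, Hf_pos, Hf_pos, Finset.sum_range_succ]
    unfold a
    rw [if_pos (by omega), Int.toNat_natCast]
    ring
  · obtain ⟨m, hm⟩ := Int.eq_ofNat_of_zero_le (a := -k - 1) (by omega)
    have e1 : k + 1 = -((m : ℕ) : ℤ) := by omega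
    have e2 : k = -((m + 1 : ℕ) : ℤ) := by push_cast; omega
    have e3 : a k = aN m := by
      unfold a
      rw [if_neg hk, hm]
      rfl
    rw [e1, e3, e2, Hf_neg, Hf_neg, Finset.sum_range_succ]
    ring

theorem s_POT (hC : S_COL) (hI : S_INT) : S_POT := by
  refine ⟨a_mem, fun u hu => ?_⟩
  have hs : √(1 - |u| ^ 2) = √(1 - u ^ 2) := by rw [sq_abs]
  have hI2 := hI.2 |u| (abs_nonneg u) hu
  rw [hs] at hI2
  have hsq : 0 ≤ √(1 - u ^ 2) := Real.sqrt_nonneg _
  have hU0 : 0 ≤ Ubar u := by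
    unfold Ubar
    linarith [hI2.1]
  have hU1 : Ubar u ≤ 1 := by
    unfold Ubar
    linarith [hI2.2.1]
  obtain ⟨hul, hur⟩ := abs_le.mp hu
  refine ⟨Hf u, ?_, ?_, ?_, ?_, ?_, ?_⟩
  · have key : ∀ m : ℕ, |(∑ j ∈ Finset.range m, (mu u (aN j) - Ubar u)) -
        m * (√(1 - u ^ 2) + u / 2)| ≤ 20 := by
      intro m
      have h := hC u hu m
      have e : ∑ k ∈ Finset.range m, (mu u (aN k) - Ubar u - √(1 - u ^ 2) - u / 2) =
          (∑ j ∈ Finset.range m, (mu u (aN j) - Ubar u)) - m * (√(1 - u ^ 2) + u / 2) := by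
        have : ∀ k ∈ Finset.range m, mu u (aN k) - Ubar u - √(1 - u ^ 2) - u / 2 =
            (mu u (aN k) - Ubar u) - (√(1 - u ^ 2) + u / 2) := fun k _ => by ring
        rw [Finset.sum_congr rfl this, Finset.sum_sub_distrib, Finset.sum_const, Finset.card_range,
          nsmul_eq_mul]
      rw [e] at h
      exact h
    intro k
    rcases Int.eq_nat_or_neg k with ⟨m, rfl | rfl⟩
    · rw [Hf_pos]
      exact_mod_cast key m
    · rw [Hf_neg, ← abs_neg]
      have h := key m
      have e : -(-∑ j ∈ Finset.range m, (mu u (aN j) - Ubar u) -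
          ((-(m : ℤ) : ℤ) : ℝ) * (√(1 - u ^ 2) + u / 2)) =
          (∑ j ∈ Finset.range m, (mu u (aN j) - Ubar u)) - m * (√(1 - u ^ 2) + u / 2) := by
        push_cast
        ring
      rw [e]
      exact h
  · intro k
    rw [Hf_step]
    unfold mu
    have := le_max_right (a k - u) 0
    linarith
  · intro k
    rw [Hf_step]
    unfold mu
    have h1 := le_max_left (a k - u) 0
    have h2 : max (a k) 0 - max (-a k) 0 = a k := by
      rcases le_total (a k) 0 with h | h
      · rw [max_eq_right h, max_eq_left (by linarith)]; ring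
      · rw [max_eq_left h, max_eq_right (by linarith)]; ring
    linarith
  · intro k
    rw [Hf_step]
    unfold mu
    have h1 : max (a k - u) 0 ≤ max (a k) 0 + 1 := by
      apply max_le
      · linarith [le_max_left (a k) 0]
      · linarith [le_max_right (a k) 0]
    linarith
  · intro k
    rw [Hf_step]
    unfold mu
    have h1 : max (a k - u) 0 + u ≤ max (a k) 0 + 1 := by
      rcases le_total (a k - u) 0 with h | h
      · rw [max_eq_right h]
        linarith [le_max_right (a k) 0]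
      · rw [max_eq_left h]
        linarith [le_max_left (a k) 0]
    linarith
  · intro hu5 k
    have hU : Ubar u = 0 := by
      unfold Ubar
      have := hI.1 |u| (abs_nonneg u) hu5
      rw [hs] at this
      rw [this]
      ring
    rw [Hf_step, hU]
    unfold mu
    constructor
    · intro h
      rw [max_eq_right (by linarith : a k - u ≤ 0)]
      ring
    · intro h
      rw [max_eq_left (by linarith : (0 : ℝ) ≤ a k - u)]
      rcases le_total (a k) 0 with h | h
      · rw [max_eq_right h, max_eq_left (by linarith : (0 : ℝ) ≤ -a k)]; ring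
      · rw [max_eq_left h, max_eq_right (by linarith : -a k ≤ 0)]; ring

end Pool.Agent.L7h21.WN
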